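import Pool.Agent.Q109.RCG.Main

set_option autoImplicit false

namespace Pool.Agent.Results.MP_0a00ee_co.EvenCycles

open Q109.RCG

/-- The reduced clique graph of a chordal graph can contain induced cycles of every even length at
least six; in particular it is not true that it contains no induced cycle with `k` vertices for
`k ≥ 7`. -/
theorem result :
    (∀ k : ℕ, 6 ≤ k → Even k → ∃ (V : Type) (_ : Fintype V) (G : SimpleGraph V),
      Q109.Tough.IsChordal G ∧ Nonempty (SimpleGraph.cycleGraph k ↪g CR G)) ∧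
    ¬ (∀ (V : Type) [Fintype V] (G : SimpleGraph V), Q109.Tough.IsChordal G →
      ∀ k : ℕ, 7 ≤ k → IsEmpty (SimpleGraph.cycleGraph k ↪g CR G)) := by
  have h1 : ∀ k : ℕ, 6 ≤ k → Even k → ∃ (V : Type) (_ : Fintype V) (G : SimpleGraph V),
      Q109.Tough.IsChordal G ∧ Nonempty (SimpleGraph.cycleGraph k ↪g CR G) := by
    intro k hk hev
    obtain ⟨m, hm⟩ := hev
    have hm2 : k = 2 * m := by omega
    subst hm2
    exact ⟨_, inferInstance, gr m, gr_chordal m, even_cycle m (by omega)⟩
  refine ⟨h1, ?_⟩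
  intro h
  obtain ⟨V, hV, G, hG, ⟨φ⟩⟩ := h1 8 (by norm_num) (by decide)
  exact (h V G hG 8 (by norm_num)).false φ

end Pool.Agent.Results.MP_0a00ee_co.EvenCycles
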